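import Pool.Agent.Helper98_CC.Stmts

/-!
CC, module FRB: the Frobenius formula for the number of pairs with given commutator.
-/

open scoped BigOperators

noncomputable section

namespace Pool.Agent.Helper13_CC

open Pool.Agent.Helper51_AWC Pool.Agent.Helper98_CC

variable {H : Type} [Group H]

theorem sum_conj [Fintype H] {χ : H → ℂ} (hχ : χ ∈ Irr H) (x z : H) :
    ∑ y : H, χ (y * x * y⁻¹ * z) = (Fintype.card H : ℂ) * χ x * χ z / χ 1 := by
  have h1 := irr_one_ne hχ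
  obtain ⟨n, ρ, hρ, rfl⟩ := hχ
  set T : (Fin n → ℂ) →ₗ[ℂ] (Fin n → ℂ) := ∑ y : H, ρ (y * x * y⁻¹) with hT
  have hcomm : ∀ g, T ∘ₗ ρ g = ρ g ∘ₗ T := by
    intro g
    change T * ρ g = ρ g * T
    rw [hT, Finset.sum_mul, Finset.mul_sum, ← Equiv.sum_comp (Equiv.mulLeft g)]
    apply Finset.sum_congr rfl
    intro y _
    rw [← map_mul, ← map_mul]
    congr 1
    simp only [Equiv.coe_mulLeft]
    group
  obtain ⟨c, hc⟩ := schur_scalar ρ T hcomm
  have ht1 : LinearMap.trace ℂ (Fin n → ℂ) T = (Fintype.card H : ℂ) * ρ.character x := by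
    rw [hT, map_sum]
    have h2 : ∀ y : H, LinearMap.trace ℂ (Fin n → ℂ) (ρ (y * x * y⁻¹)) = ρ.character x :=
      fun y => Representation.char_conj ρ x y
    rw [Finset.sum_congr rfl fun y _ => h2 y, Finset.sum_const, Finset.card_univ, nsmul_eq_mul]
  have ht2 : LinearMap.trace ℂ (Fin n → ℂ) T = c * ρ.character 1 := by
    rw [hc, map_smul, smul_eq_mul]
    congr 1
    rw [Representation.character, map_one]
    rfl
  have hc2 : c = (Fintype.card H : ℂ) * ρ.character x / ρ.character 1 := by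
    rw [eq_div_iff h1, ← ht2, ht1]
  have ht3 : ∑ y : H, ρ.character (y * x * y⁻¹ * z) = LinearMap.trace ℂ (Fin n → ℂ) (T * ρ z) := by
    rw [hT, Finset.sum_mul, map_sum]
    apply Finset.sum_congr rfl
    intro y _
    rw [← map_mul]
    rfl
  rw [ht3, hc]
  have h4 : (c • (LinearMap.id : (Fin n → ℂ) →ₗ[ℂ] (Fin n → ℂ))) * ρ z = c • ρ z := by
    rw [smul_mul_assoc]
    rfl
  rw [h4, map_smul, smul_eq_mul, hc2]
  change _ * ρ.character z = _
  ring

open Classical in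
/-- The number of pairs, as a double sum. -/
theorem card_eq [Fintype H] (h : H) :
    ((Nat.card {p : H × H // p.1 * p.2 * p.1⁻¹ * p.2⁻¹ = h} : ℕ) : ℂ) =
      ∑ p : H × H, if p.1 * p.2 * p.1⁻¹ * p.2⁻¹ = h then 1 else 0 := by
  rw [Nat.card_eq_fintype_card, Fintype.card_subtype, Finset.card_eq_sum_ones, Nat.cast_sum,
    Finset.sum_filter]
  simp

theorem card_conj (h k : H) :
    Nat.card {p : H × H // p.1 * p.2 * p.1⁻¹ * p.2⁻¹ = k * h * k⁻¹} =
      Nat.card {p : H × H // p.1 * p.2 * p.1⁻¹ * p.2⁻¹ = h} := by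
  symm
  refine Nat.card_congr (Equiv.subtypeEquiv
    ((MulAut.conj k).toEquiv.prodCongr (MulAut.conj k).toEquiv) ?_)
  rintro ⟨a, b⟩
  simp only [Equiv.prodCongr_apply, Prod.map_apply]
  change _ ↔ (k * a * k⁻¹) * (k * b * k⁻¹) * (k * a * k⁻¹)⁻¹ * (k * b * k⁻¹)⁻¹ = k * h * k⁻¹
  have e : (k * a * k⁻¹) * (k * b * k⁻¹) * (k * a * k⁻¹)⁻¹ * (k * b * k⁻¹)⁻¹ =
      k * (a * b * a⁻¹ * b⁻¹) * k⁻¹ := by group
  rw [e]
  constructor
  · intro h1
    rw [h1]
  · intro h1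
    exact mul_left_cancel (mul_right_cancel h1)

theorem pair_sum [Fintype H] {ψ : H → ℂ} (hψ : ψ ∈ Irr H) :
    ∑ h : H, ((Nat.card {p : H × H // p.1 * p.2 * p.1⁻¹ * p.2⁻¹ = h} : ℕ) : ℂ) * ψ h⁻¹ =
      (Fintype.card H : ℂ) ^ 2 / ψ 1 := by
  classical
  have h1 : ∀ h : H, ((Nat.card {p : H × H // p.1 * p.2 * p.1⁻¹ * p.2⁻¹ = h} : ℕ) : ℂ) * ψ h⁻¹ =
      ∑ p : H × H, if p.1 * p.2 * p.1⁻¹ * p.2⁻¹ = h then ψ h⁻¹ else 0 := by
    intro h
    rw [card_eq, Finset.sum_mul]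
    apply Finset.sum_congr rfl
    intro p _
    split_ifs <;> simp
  rw [Finset.sum_congr rfl fun h _ => h1 h, Finset.sum_comm]
  have h2 : ∀ p : H × H, (∑ h : H, if p.1 * p.2 * p.1⁻¹ * p.2⁻¹ = h then ψ h⁻¹ else 0) =
      ψ (p.2 * p.1 * p.2⁻¹ * p.1⁻¹) := by
    intro p
    rw [Finset.sum_ite_eq, if_pos (Finset.mem_univ _)]
    congr 1
    group
  rw [Finset.sum_congr rfl fun p _ => h2 p, Fintype.sum_prod_type]
  have h3 : ∀ x : H, ∑ y : H, ψ (y * x * y⁻¹ * x⁻¹) =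
      (Fintype.card H : ℂ) / ψ 1 * (ψ x * ψ x⁻¹) := by
    intro x
    rw [sum_conj hψ]
    ring
  rw [Finset.sum_congr rfl fun x _ => h3 x, ← Finset.mul_sum, irr_orth_self hψ]
  ring

/-- FROB -/
theorem frob : FrobStmt := by
  intro H _ _ h
  classical
  have := Fintype.ofFinite H
  have := Fintype.ofFinite (Irr H)
  have hfs : ∀ h : H, (∑ᶠ (θ : H → ℂ) (_ : θ ∈ Irr H), θ h / θ 1) =
      ∑ θ : Irr H, (θ : H → ℂ) h / (θ : H → ℂ) 1 := by
    intro h
    have e := finsum_set_coe_eq_finsum_mem (f := fun θ : H → ℂ => θ h / θ 1) (Irr H)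
    rw [← e]
    exact finsum_eq_sum_of_fintype _
  have key : (fun h : H => ((Nat.card {p : H × H // p.1 * p.2 * p.1⁻¹ * p.2⁻¹ = h} : ℕ) : ℂ) -
      (Nat.card H : ℂ) * ∑ θ : Irr H, (θ : H → ℂ) h / (θ : H → ℂ) 1) = 0 := by
    apply irr_complete'
    · intro g k
      rw [card_conj]
      congr 2
      apply Finset.sum_congr rfl
      intro θ _
      rw [irr_conj θ.2]
    · intro ψ hψ
      have h1 : ∀ g : H, (((Nat.card {p : H × H // p.1 * p.2 * p.1⁻¹ * p.2⁻¹ = g} : ℕ) : ℂ) -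
          (Nat.card H : ℂ) * ∑ θ : Irr H, (θ : H → ℂ) g / (θ : H → ℂ) 1) * ψ g⁻¹ =
          ((Nat.card {p : H × H // p.1 * p.2 * p.1⁻¹ * p.2⁻¹ = g} : ℕ) : ℂ) * ψ g⁻¹ -
          ∑ θ : Irr H, (Nat.card H : ℂ) / (θ : H → ℂ) 1 * ((θ : H → ℂ) g * ψ g⁻¹) := by
        intro g
        rw [sub_mul, Finset.mul_sum, Finset.sum_mul]
        congr 1
        apply Finset.sum_congr rfl
        intro θ _
        ring
      rw [Finset.sum_congr rfl fun g _ => h1 g, Finset.sum_sub_distrib, pair_sum hψ,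
        Finset.sum_comm]
      simp_rw [← Finset.mul_sum]
      rw [Finset.sum_eq_single_of_mem ⟨ψ, hψ⟩ (Finset.mem_univ _)]
      · rw [irr_orth_self hψ, Nat.card_eq_fintype_card]
        ring
      · intro θ _ hne
        rw [irr_orth_ne θ.2 hψ (fun h => hne (Subtype.ext h)), mul_zero]
  have h2 := congrFun key h
  rw [hfs]
  exact sub_eq_zero.1 h2

end Pool.Agent.Helper13_CC
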